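import Pool.Agent.H34.GZ.Targets1

/-!
# Row INQ of the board gz_modules (helper73)
-/

set_option autoImplicit false

open MeasureTheory Set
open Pool.Agent.H34.GZ

namespace Pool.Agent.H73.GZ

lemma dsum {m : ℕ} (f g : Fin m → ℝ) :
    ∑ i, ∑ j, f j * g i = (∑ j, f j) * ∑ i, g i := by
  rw [Finset.sum_mul_sum, Finset.sum_comm]

lemma one_sub_sum {m : ℕ} (f : Fin m → ℝ) : ∑ i, (1 - f i) = m - ∑ i, f i := by
  rw [Finset.sum_sub_distrib]
  simp

/-- one level -/
lemma level {m : ℕ} (hm : 0 < m) (X Y : Fin m → ℝ) (hX : ∀ i, X i = 0 ∨ X i = 1)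
    (hY : ∀ i, Y i = 0 ∨ Y i = 1) (mX : Monotone X) (mY : Monotone Y) (hYX : ∀ i, Y i ≤ X i) :
    ∑ i, ∑ j, (max (Y j - X i) 0 + max (X i - (∑ i, X i - ∑ i, Y i) / m - Y j) 0) ≤
      ∑ i, ∑ j, (if i < j then (X j - X i) + (Y j - Y i) else 0) := by
  set k : ℝ := ∑ i, X i with hk
  set l : ℝ := ∑ i, Y i with hl
  have hm' : (0 : ℝ) < m := by exact_mod_cast hm
  have hl0 : 0 ≤ l := Finset.sum_nonneg fun i _ => by
    rcases hY i with h | h <;> rw [h] <;> norm_num
  have hlk : l ≤ k := Finset.sum_le_sum fun i _ => hYX i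
  have hkm : k ≤ m := by
    have h1 : k ≤ ∑ _i : Fin m, (1 : ℝ) := Finset.sum_le_sum fun i _ => by
      rcases hX i with h | h <;> rw [h] <;> norm_num
    simpa using h1
  set Q : ℝ := (k - l) / m with hQ
  have hQ0 : 0 ≤ Q := div_nonneg (by linarith) hm'.le
  have hQ1 : Q ≤ 1 := by rw [hQ, div_le_one hm']; linarith
  have hL : ∀ i j : Fin m, max (Y j - X i) 0 + max (X i - Q - Y j) 0 =
      Y j * (1 - X i) + (1 - Q) * ((1 - Y j) * X i) := by
    intro i j
    rcases hX i with h | h <;> rcases hY j with h' | h' <;> rw [h, h']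
    · rw [max_eq_right (by linarith), max_eq_right (by linarith)]; ring
    · rw [max_eq_left (by linarith), max_eq_right (by linarith)]; ring
    · rw [max_eq_right (by linarith), max_eq_left (by linarith)]; ring
    · rw [max_eq_right (by linarith), max_eq_right (by linarith)]; ring
  have hR : ∀ (Z : Fin m → ℝ), (∀ i, Z i = 0 ∨ Z i = 1) → Monotone Z → ∀ i j : Fin m,
      (if i < j then (Z j - Z i) else 0) = Z j * (1 - Z i) := by
    intro Z hZ mZ i j
    by_cases hij : i < j
    · rw [if_pos hij]
      have h1 := mZ hij.le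
      rcases hZ i with h | h <;> rcases hZ j with h' | h' <;> rw [h, h'] at h1 ⊢ <;>
        first | ring1 | linarith
    · rw [if_neg hij]
      have h1 := mZ (not_lt.mp hij)
      rcases hZ i with h | h <;> rcases hZ j with h' | h' <;> rw [h, h'] at h1 ⊢ <;>
        first | ring1 | linarith
  have hR2 : ∀ i j : Fin m, (if i < j then (X j - X i) + (Y j - Y i) else 0) =
      X j * (1 - X i) + Y j * (1 - Y i) := by
    intro i j
    rw [← hR X hX mX i j, ← hR Y hY mY i j]
    split_ifs <;> ring
  simp_rw [hL, hR2, Finset.sum_add_distrib, ← Finset.mul_sum]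
  have e1 : ∑ i, ∑ j, Y j * (1 - X i) = l * (m - k) := by
    rw [dsum Y (fun i => 1 - X i), one_sub_sum]
  have e2 : ∑ i, ∑ j, (1 - Y j) * X i = (m - l) * k := by
    rw [dsum (fun j => 1 - Y j) X, one_sub_sum]
  have e3 : ∑ i, ∑ j, X j * (1 - X i) = k * (m - k) := by
    rw [dsum X (fun i => 1 - X i), one_sub_sum]
  have e4 : ∑ i, ∑ j, Y j * (1 - Y i) = l * (m - l) := by
    rw [dsum Y (fun i => 1 - Y i), one_sub_sum]
  rw [e1, e2, e3, e4]
  have e5 : k * (m - k) + l * (m - l) - (l * (m - k) + (1 - Q) * ((m - l) * k)) =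
      l * (k - l) * (m - k) / m := by
    rw [hQ]
    field_simp
    ring
  have e6 : 0 ≤ l * (k - l) * (m - k) / m := by
    apply div_nonneg _ hm'.le
    exact mul_nonneg (mul_nonneg hl0 (by linarith)) (by linarith)
  linarith

/-- the level function -/
noncomputable def st (a t : ℝ) : ℝ := (Iio a).indicator (fun _ => (1 : ℝ)) t

lemma st_val (a t : ℝ) : st a t = 0 ∨ st a t = 1 := by
  unfold st
  by_cases h : t ∈ Iio a
  · right; rw [indicator_of_mem h]
  · left; rw [indicator_of_notMem h]

lemma st_mono {a b : ℝ} (h : a ≤ b) (t : ℝ) : st a t ≤ st b t := by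
  unfold st
  by_cases h1 : t ∈ Iio a
  · have h2 : t ∈ Iio b := lt_of_lt_of_le h1 h
    rw [indicator_of_mem h1, indicator_of_mem h2]
  · rw [indicator_of_notMem h1]
    exact indicator_nonneg (fun _ _ => zero_le_one) t

lemma st_int (N a : ℝ) (h1 : -N ≤ a) (h2 : a ≤ N) :
    Integrable (st a) (volume.restrict (Ioc (-N) N)) ∧
      ∫ t, st a t ∂(volume.restrict (Ioc (-N) N)) = a + N := by
  have hfin : IsFiniteMeasure (volume.restrict (Ioc (-N) N)) :=
    ⟨by rw [Measure.restrict_apply_univ, Real.volume_Ioc]; exact ENNReal.ofReal_lt_top⟩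
  constructor
  · exact (integrable_const (1 : ℝ)).indicator measurableSet_Iio
  · unfold st
    rw [integral_indicator_const (1 : ℝ) measurableSet_Iio, measureReal_def,
      Measure.restrict_apply measurableSet_Iio]
    have e : Iio a ∩ Ioc (-N) N = Ioo (-N) a := by
      ext t
      simp only [mem_inter_iff, mem_Iio, mem_Ioc, mem_Ioo]
      constructor
      · rintro ⟨h3, h4, -⟩; exact ⟨h4, h3⟩
      · rintro ⟨h3, h4⟩; exact ⟨h4, h3, by linarith⟩
    rw [e, Real.volume_Ioo, ENNReal.toReal_ofReal (by linarith)]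
    simp

lemma max_int_le {μ : Measure ℝ} {f : ℝ → ℝ} (hf : Integrable f μ) :
    Integrable (fun t => max (f t) 0) μ ∧ max (∫ t, f t ∂μ) 0 ≤ ∫ t, max (f t) 0 ∂μ := by
  have h1 : Integrable (fun t => max (f t) 0) μ := hf.pos_part
  refine ⟨h1, max_le ?_ ?_⟩
  · exact integral_mono hf h1 fun t => le_max_left _ _
  · exact integral_nonneg fun t => le_max_right _ _

theorem pf_INQ : T_INQ := by
  intro m x y Q hx hy hyx hQ hs
  rcases Nat.eq_zero_or_pos m with rfl | hm
  · simp
  have hm' : (0 : ℝ) < m := by exact_mod_cast hm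
  -- a large interval
  obtain ⟨N, hN⟩ : ∃ N : ℝ, ∀ i, |x i| ≤ N ∧ |y i| ≤ N := by
    refine ⟨∑ i, (|x i| + |y i|), fun i => ?_⟩
    have h1 : |x i| + |y i| ≤ ∑ i, (|x i| + |y i|) :=
      Finset.single_le_sum (f := fun i => |x i| + |y i|)
        (fun j _ => add_nonneg (abs_nonneg _) (abs_nonneg _)) (Finset.mem_univ i)
    have h2 := abs_nonneg (x i)
    have h3 := abs_nonneg (y i)
    exact ⟨by linarith, by linarith⟩
  set μ : Measure ℝ := volume.restrict (Ioc (-N) N) with hμ
  have ix : ∀ i, Integrable (st (x i)) μ ∧ ∫ t, st (x i) t ∂μ = x i + N := fun i =>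
    st_int N (x i) (abs_le.mp (hN i).1).1 (abs_le.mp (hN i).1).2
  have iy : ∀ i, Integrable (st (y i)) μ ∧ ∫ t, st (y i) t ∂μ = y i + N := fun i =>
    st_int N (y i) (abs_le.mp (hN i).2).1 (abs_le.mp (hN i).2).2
  set q : ℝ → ℝ := fun t => (∑ i, st (x i) t - ∑ i, st (y i) t) / m with hq
  have iq : Integrable q μ := by
    rw [hq]
    apply Integrable.div_const
    exact (integrable_finsetSum _ fun i _ => (ix i).1).sub
      (integrable_finsetSum _ fun i _ => (iy i).1)
  have iqv : ∫ t, q t ∂μ = (∑ i, x i - ∑ i, y i) / m := by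
    simp only [hq]
    rw [integral_div, integral_sub (integrable_finsetSum _ fun i _ => (ix i).1)
      (integrable_finsetSum _ fun i _ => (iy i).1), integral_finsetSum _ fun i _ => (ix i).1,
      integral_finsetSum _ fun i _ => (iy i).1]
    simp_rw [fun i => (ix i).2, fun i => (iy i).2, Finset.sum_add_distrib]
    congr 1
    ring
  have hq0 : ∫ t, q t ∂μ ≤ Q := by
    rw [iqv, div_le_iff₀ hm']
    linarith
  have iA : ∀ i j, Integrable (fun t => max (st (y j) t - st (x i) t) 0) μ ∧
      max (y j - x i) 0 ≤ ∫ t, max (st (y j) t - st (x i) t) 0 ∂μ := by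
    intro i j
    have h1 := max_int_le ((iy j).1.sub (ix i).1)
    have h2 : ∫ t, (st (y j) - st (x i)) t ∂μ = y j - x i := by
      rw [show (fun t => (st (y j) - st (x i)) t) = fun t => st (y j) t - st (x i) t from rfl,
        integral_sub (iy j).1 (ix i).1, (iy j).2, (ix i).2]
      ring
    rw [h2] at h1
    exact h1
  have iB : ∀ i j, Integrable (fun t => max (st (x i) t - q t - st (y j) t) 0) μ ∧
      max (x i - Q - y j) 0 ≤ ∫ t, max (st (x i) t - q t - st (y j) t) 0 ∂μ := by
    intro i j
    have h0 : Integrable (fun t => st (x i) t - q t - st (y j) t) μ :=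
      ((ix i).1.sub iq).sub (iy j).1
    have h1 := max_int_le h0
    have h3 : Integrable (fun t => st (x i) t - q t) μ := (ix i).1.sub iq
    have h2 : ∫ t, (st (x i) t - q t - st (y j) t) ∂μ = x i - (∫ t, q t ∂μ) - y j := by
      rw [integral_sub h3 (iy j).1, integral_sub (ix i).1 iq, (iy j).2, (ix i).2]
      ring
    rw [h2] at h1
    exact ⟨h1.1, (max_le_max (by linarith) le_rfl).trans h1.2⟩
  have iC : ∀ i j, Integrable (fun t => max (st (y j) t - st (x i) t) 0 +
      max (st (x i) t - q t - st (y j) t) 0) μ := fun i j => (iA i j).1.add (iB i j).1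
  have sx : ∀ i j, Integrable (fun t => st (x j) t - st (x i) t) μ := fun i j =>
    (ix j).1.sub (ix i).1
  have sy : ∀ i j, Integrable (fun t => st (y j) t - st (y i) t) μ := fun i j =>
    (iy j).1.sub (iy i).1
  calc ∑ i, ∑ j, (max (y j - x i) 0 + max (x i - Q - y j) 0)
      ≤ ∑ i, ∑ j, ∫ t, (max (st (y j) t - st (x i) t) 0 +
          max (st (x i) t - q t - st (y j) t) 0) ∂μ := by
        refine Finset.sum_le_sum fun i _ => Finset.sum_le_sum fun j _ => ?_
        rw [integral_add (iA i j).1 (iB i j).1]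
        exact add_le_add (iA i j).2 (iB i j).2
    _ = ∫ t, ∑ i, ∑ j, (max (st (y j) t - st (x i) t) 0 +
          max (st (x i) t - q t - st (y j) t) 0) ∂μ := by
        rw [integral_finsetSum _ fun i _ => integrable_finsetSum _ fun j _ => iC i j]
        refine Finset.sum_congr rfl fun i _ => ?_
        rw [integral_finsetSum _ fun j _ => iC i j]
    _ ≤ ∫ t, ∑ i, ∑ j, (if i < j then (st (x j) t - st (x i) t) + (st (y j) t - st (y i) t)
          else 0) ∂μ := by
        refine integral_mono ?_ ?_ fun t => ?_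
        · exact integrable_finsetSum _ fun i _ => integrable_finsetSum _ fun j _ => iC i j
        · refine integrable_finsetSum _ fun i _ => integrable_finsetSum _ fun j _ => ?_
          by_cases hij : i < j
          · simp only [if_pos hij]
            exact (sx i j).add (sy i j)
          · simp only [if_neg hij]
            exact integrable_zero _ _ _
        · exact level hm (fun i => st (x i) t) (fun i => st (y i) t) (fun i => st_val _ _)
            (fun i => st_val _ _) (fun i j hij => st_mono (hx hij) t)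
            (fun i j hij => st_mono (hy hij) t) (fun i => st_mono (hyx i) t)
    _ = ∑ i, ∑ j, (if i < j then (x j - x i) + (y j - y i) else 0) := by
        have hi : ∀ i j : Fin m, Integrable (fun t => (if i < j then
            (st (x j) t - st (x i) t) + (st (y j) t - st (y i) t) else 0)) μ := by
          intro i j
          by_cases hij : i < j
          · simp only [if_pos hij]
            exact (sx i j).add (sy i j)
          · simp only [if_neg hij]
            exact integrable_zero _ _ _
        rw [integral_finsetSum _ fun i _ => integrable_finsetSum _ fun j _ => hi i j]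
        refine Finset.sum_congr rfl fun i _ => ?_
        rw [integral_finsetSum _ fun j _ => hi i j]
        refine Finset.sum_congr rfl fun j _ => ?_
        by_cases hij : i < j
        · simp only [if_pos hij]
          rw [integral_add (sx i j) (sy i j), integral_sub (ix j).1 (ix i).1,
            integral_sub (iy j).1 (iy i).1, (ix j).2, (ix i).2,
            (iy j).2, (iy i).2]
          ring
        · simp only [if_neg hij, integral_zero]

end Pool.Agent.H73.GZ
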